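import Pool.Agent.U115.WM.Stm

/-!
# Project WM, package COV: the covolume of a lattice
-/

set_option autoImplicit false

open Matrix

namespace Pool.Agent.U333.WM

open Pool.Agent.U115.WM

lemma lat_le {n k : ℕ} (B B' : Matrix (Fin n) (Fin k) ℤ) (h : lat B' ⊆ lat B) :
    ∃ V : Matrix (Fin k) (Fin k) ℤ, B' = B * V := by
  have h1 : ∀ j : Fin k, ∃ c : Fin k → ℤ, B *ᵥ c = B' *ᵥ Pi.single j 1 := fun j =>
    h ⟨Pi.single j 1, rfl⟩
  choose c hc using h1
  refine ⟨Matrix.of fun i j => c j i, ?_⟩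
  ext i j
  have h2 := congrFun (hc j) i
  rw [Matrix.mulVec_single_one] at h2
  rw [Matrix.mul_apply]
  exact h2.symm

lemma unit_of {n k : ℕ} (B B' : Matrix (Fin n) (Fin k) ℤ) (hB : Inj B) (h : lat B = lat B') :
    ∃ V : Matrix (Fin k) (Fin k) ℤ, B' = B * V ∧ IsUnit V.det := by
  obtain ⟨V, hV⟩ := lat_le B B' h.ge
  obtain ⟨W, hW⟩ := lat_le B' B h.le
  refine ⟨V, hV, ?_⟩
  have h1 : V * W = 1 := by
    have h2 : B * (V * W - 1) = 0 := by
      rw [Matrix.mul_sub, ← Matrix.mul_assoc, ← hV, ← hW, Matrix.mul_one, sub_self]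
    have h3 : V * W - 1 = 0 := by
      ext i j
      have h4 : B *ᵥ ((V * W - 1) *ᵥ Pi.single j 1) = 0 := by
        rw [Matrix.mulVec_mulVec, h2, Matrix.zero_mulVec]
      have h5 := hB _ h4
      rw [Matrix.mulVec_single_one] at h5
      exact congrFun h5 i
    exact sub_eq_zero.mp h3
  have h2 : V.det * W.det = 1 := by rw [← Matrix.det_mul, h1, Matrix.det_one]
  exact IsUnit.of_mul_eq_one _ h2

lemma det_unimod {n k : ℕ} (B : Matrix (Fin n) (Fin k) ℤ) (U : Matrix (Fin k) (Fin k) ℤ)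
    (hU : IsUnit U.det) : ((B * U)ᵀ * (B * U)).det = (Bᵀ * B).det := by
  have h1 : (B * U)ᵀ * (B * U) = Uᵀ * (Bᵀ * B) * U := by
    rw [Matrix.transpose_mul]
    simp only [Matrix.mul_assoc]
  rw [h1, Matrix.det_mul, Matrix.det_mul, Matrix.det_transpose]
  rcases Int.isUnit_iff.mp hU with h | h <;> rw [h] <;> ring

theorem t_COV : S_COV := by
  refine ⟨?_, ?_, ?_⟩
  · intro n k B B' hB hB' h
    obtain ⟨V, hV, hVu⟩ := unit_of B B' hB h
    have h1 : (Bᵀ * B).det = (B'ᵀ * B').det := by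
      rw [hV, det_unimod B V hVu]
    exact ⟨h1, by rw [cov, cov, h1]⟩
  · intro n k B U hU
    have hUU : U * U⁻¹ = 1 := Matrix.mul_nonsing_inv U hU
    have hUU' : U⁻¹ * U = 1 := Matrix.nonsing_inv_mul U hU
    refine ⟨?_, ?_, det_unimod B U hU⟩
    · ext x
      constructor
      · rintro ⟨c, rfl⟩
        exact ⟨U *ᵥ c, by simp only [Matrix.mulVec_mulVec]⟩
      · rintro ⟨c, rfl⟩
        refine ⟨U⁻¹ *ᵥ c, ?_⟩
        simp only [Matrix.mulVec_mulVec]
        rw [Matrix.mul_assoc, hUU, Matrix.mul_one]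
    · intro hB c hc
      rw [← Matrix.mulVec_mulVec] at hc
      have h1 := hB _ hc
      have h2 : U⁻¹ *ᵥ (U *ᵥ c) = 0 := by rw [h1, Matrix.mulVec_zero]
      rwa [Matrix.mulVec_mulVec, hUU', Matrix.one_mulVec] at h2
  · intro n k B hB
    have h0 : (Bᵀ * B).det ≠ 0 := by
      intro h
      obtain ⟨v, hv, hv0⟩ := Matrix.exists_mulVec_eq_zero_iff.mpr h
      apply hv
      apply hB
      have h1 : (B *ᵥ v) ⬝ᵥ (B *ᵥ v) = 0 := by
        rw [Matrix.dotProduct_mulVec, Matrix.vecMul_mulVec, ← Matrix.mulVec_transpose] at *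
        have h2 : v ⬝ᵥ ((Bᵀ * B) *ᵥ v) = 0 := by rw [hv0, dotProduct_zero]
        rw [Matrix.dotProduct_mulVec, ← Matrix.mulVec_transpose] at h2
        exact h2
      exact dotProduct_self_eq_zero.mp h1
    have h2 : 0 ≤ (Bᵀ * B).det := by
      have h3 : (0 : ℝ) ≤ (((Bᵀ * B).det : ℤ) : ℝ) := by
        rw [Int.cast_det]
        have h4 : (Bᵀ * B).map (Int.cast : ℤ → ℝ) =
            (B.map (Int.cast : ℤ → ℝ))ᴴ * B.map (Int.cast : ℤ → ℝ) := by
          ext i j
          simp [Matrix.mul_apply]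
        rw [h4]
        exact (Matrix.posSemidef_conjTranspose_mul_self _).det_nonneg
      exact_mod_cast h3
    omega

end Pool.Agent.U333.WM
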